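import Pool.Agent.Work.MP_f96e05_an.NR.Iff

/-!
A supersolution of the continued fraction that narrows the gap in the closed form.
-/

set_option autoImplicit false

open Filter Topology Complex
open scoped ComplexConjugate

namespace Pool.Agent.Work.MP_f96e05_an.NR

theorem super_ineq {α c x : ℝ} (h0 : 2 / 5 ≤ α) (h1 : α < 1) (hc : 0 < c)
    (hc2 : 1 - α ^ 2 ≤ 4 * α * c ^ 2) (hx : 0 ≤ x) :
    (1 + α * x ^ 2 + α * c * x ^ 3) * (α * (1 - α ^ 2) + α * c * (1 - α ^ 3) * x) ≤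
      (α * c * x ^ 2 + α * (1 - α) * x + 2 * α * c) ^ 2 := by
  have hα : 0 < α := by linarith
  have hh : 0 < 1 - α := by linarith
  have a0 : 0 ≤ α * (4 * α * c ^ 2 - (1 - α ^ 2)) := mul_nonneg hα.le (by linarith)
  have a1 : 0 ≤ x * (α * c * (1 - α) * (4 * α - (1 + α + α ^ 2))) :=
    mul_nonneg hx (mul_nonneg (by positivity) (by nlinarith))
  have a2 : 0 ≤ x ^ 2 * (α * (4 * α * c ^ 2 - (1 - α ^ 2))) := mul_nonneg (sq_nonneg x) a0
  have a3 : 0 ≤ x ^ 2 * (α ^ 3 * (α * c * x - (1 - α) * (2 + α) / (2 * α)) ^ 2) := by positivity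
  have a4 : 0 ≤ x ^ 2 * (α * (1 - α) ^ 2 * (α * (4 - α)) / 4) :=
    mul_nonneg (sq_nonneg x) (div_nonneg (mul_nonneg (by positivity)
      (mul_nonneg hα.le (by linarith))) (by norm_num))
  have e : α ^ 3 * (α * c * x - (1 - α) * (2 + α) / (2 * α)) ^ 2 = α ^ 5 * c ^ 2 * x ^ 2 -
      α ^ 3 * c * x * ((1 - α) * (2 + α)) + α * ((1 - α) * (2 + α)) ^ 2 / 4 := by
    field_simp
    ring
  rw [e] at a3
  nlinarith

theorem core {α c X : ℝ} (h0 : 2 / 5 ≤ α) (h1 : α < 1) (hc : 0 < c)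
    (hc2 : 1 - α ^ 2 < 4 * α * c ^ 2) (hX : 1 ≤ X) (hX3 : 3 ≤ α * c * X) (T u : ℕ → ℝ)
    (hu : ∀ k, u k = 1 - 2 * c * (α ^ k * X) + (α ^ k * X) ^ 2) (hT : ∀ k, 0 < T k)
    (hrec : ∀ k, T (k + 1) = 2 * u (k + 1) - u (k + 1) ^ 2 / T k) (hT0 : T 0 = 2 * u 0) :
    False := by
  have hα : 0 < α := by linarith
  set x : ℕ → ℝ := fun k => α ^ k * X with hx
  have hx0 : ∀ k, 0 < x k := fun k => by positivity
  have hxs : ∀ k, x (k + 1) = α * x k := fun k => by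
    simp only [hx]
    ring
  have hu' : ∀ k, u (k + 1) = 1 - 2 * c * (α * x k) + (α * x k) ^ 2 := fun k => by
    rw [hu, ← hxs]
  have hxt : Tendsto x atTop (𝓝 0) := by
    simpa using (tendsto_pow_atTop_nhds_zero_of_lt_one hα.le h1).mul_const X
  have hid : ∀ k, T k * (T k - T (k + 1)) = (T k - u (k + 1)) ^ 2 := fun k => by
    have := (hT k).ne'
    rw [hrec]
    field_simp
    ring
  have hanti : Antitone T := antitone_nat_of_succ_le fun k => by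
    have := (mul_nonneg_iff_of_pos_left (hT k)).1 (hid k ▸ sq_nonneg _)
    linarith
  have hlim := tendsto_atTop_ciInf hanti ⟨0, by rintro _ ⟨k, rfl⟩; exact (hT k).le⟩
  set t := ⨅ k, T k
  have hut : Tendsto (fun k => u (k + 1)) atTop (𝓝 1) := by
    have := (((hxt.const_mul α).const_mul (2 * c)).const_sub 1).add ((hxt.const_mul α).pow 2)
    simp only [mul_zero, sub_zero, zero_pow two_ne_zero, add_zero] at this
    exact this.congr fun k => (hu' k).symm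
  have h13 := tendsto_nhds_unique ((hlim.mul (hlim.sub (hlim.comp (tendsto_add_atTop_nat 1)))).congr
    hid) ((hlim.sub hut).pow 2)
  have ht : t = 1 := by
    rw [sub_self, mul_zero] at h13
    exact sub_eq_zero.1 (pow_eq_zero_iff two_ne_zero |>.1 h13.symm)
  rw [ht] at hlim
  have hT1 : ∀ k, 1 ≤ T k := fun k => hanti.le_of_tendsto hlim k
  have hS : ∀ k, T k ≤ 1 + α * x k ^ 2 + α * c * x k ^ 3 := by
    intro k
    induction k with
    | zero =>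
      have e : x 0 = X := by simp [hx]
      rw [hT0, hu, e, pow_zero, one_mul]
      have h2 := mul_le_mul_of_nonneg_right hX3 (sq_nonneg X)
      have h3 : 0 ≤ c * X := by positivity
      have h4 : 0 ≤ α * X ^ 2 := by positivity
      nlinarith
    | succ k ih =>
      have h2 := hx0 k
      have h3 := mul_le_mul_of_nonneg_left (super_ineq h0 h1 hc hc2.le h2.le) (sq_nonneg (x k))
      have h4 : 0 < 1 + α * x k ^ 2 + α * c * x k ^ 3 := by positivity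
      have h5 := div_le_div_of_nonneg_left (sq_nonneg (u (k + 1))) (hT k) ih
      have h6 : 2 * u (k + 1) - (1 + α * x (k + 1) ^ 2 + α * c * x (k + 1) ^ 3) ≤
          u (k + 1) ^ 2 / (1 + α * x k ^ 2 + α * c * x k ^ 3) := by
        rw [le_div_iff₀ h4, hu', hxs]
        nlinarith
      rw [hrec]
      linarith
  have hs : 0 < 1 - α ^ 2 := by nlinarith
  obtain ⟨ρ, hρ1, hρ2⟩ := exists_between (show α * (1 - α ^ 2) < (2 * α * c) ^ 2 by nlinarith)
  have hρ0 : 0 < ρ := lt_trans (by positivity) hρ1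
  have e1 : ∀ᶠ k in atTop, ρ * (1 + α * x k ^ 2 + α * c * x k ^ 3) <
      (2 * α * c - α ^ 2 * x k) ^ 2 := by
    refine Tendsto.eventually_lt (((((hxt.pow 2).const_mul α).const_add 1).add
      ((hxt.pow 3).const_mul (α * c))).const_mul ρ)
      (((hxt.const_mul (α ^ 2)).const_sub (2 * α * c)).pow 2) ?_
    simpa using hρ2
  have e2 : ∀ᶠ k in atTop, α ^ 2 * x k < 2 * α * c :=
    Tendsto.eventually_lt (hxt.const_mul (α ^ 2)) tendsto_const_nhds (by simpa using by positivity)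
  have e3 : ∀ᶠ k in atTop, (α + α * c * x k) * (1 - α ^ 2) < ρ :=
    Tendsto.eventually_lt (((hxt.const_mul (α * c)).const_add α).mul_const _) tendsto_const_nhds
      (by simpa using hρ1)
  obtain ⟨K, hK⟩ := eventually_atTop.1 (e1.and (e2.and e3))
  have hstep : ∀ k, K ≤ k → ρ * x k ^ 2 ≤ T k - T (k + 1) := by
    intro k hk
    obtain ⟨b1, b2, -⟩ := hK k hk
    have h2 := hx0 k
    have h3 : x k * (2 * α * c - α ^ 2 * x k) ≤ T k - u (k + 1) := by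
      rw [hu']
      linarith [hT1 k]
    have h4 := pow_le_pow_left₀ (mul_nonneg h2.le (by linarith)) h3 2
    rw [← hid, mul_pow] at h4
    have h5 := mul_le_mul_of_nonneg_left ((mul_le_mul_of_nonneg_left (hS k) hρ0.le).trans b1.le)
      (sq_nonneg (x k))
    refine le_of_mul_le_mul_left ?_ (hT k)
    linarith
  have hV : Antitone fun j => (1 - α ^ 2) * T (j + K) - ρ * x (j + K) ^ 2 :=
    antitone_nat_of_succ_le fun j => by
      have := mul_le_mul_of_nonneg_left (hstep (j + K) (by omega)) hs.le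
      simp only [show j + 1 + K = j + K + 1 by ring, hxs]
      linarith
  have h7 := hV.le_of_tendsto (((hlim.comp (tendsto_add_atTop_nat K)).const_mul _).sub
    (((hxt.comp (tendsto_add_atTop_nat K)).pow 2).const_mul ρ)) 0
  simp only [zero_add, mul_one, zero_pow two_ne_zero, mul_zero, sub_zero] at h7
  have h8 := mul_le_mul_of_nonneg_left (hS K) hs.le
  have h9 := mul_lt_mul_of_pos_right (hK K le_rfl).2.2 (pow_pos (hx0 K) 2)
  linarith

variable {φ : ℂ → ℂ} {l a ω ω' ξ : ℂ} {α : ℝ}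

section
variable (hl : ‖l‖ = 1) (ha : ‖a‖ < 1) (hω : ‖ω‖ = 1) (hω' : ‖ω'‖ = 1) (hne : ω' ≠ ω)
  (f1 : mob l a ω = ω) (f2 : mob l a ω' = ω') (hj : jac a ω = α)
include hl ha hω hω' hne f1 f2 hj

theorem ratio_mob (hξ : ‖ξ‖ = 1) (hξ' : ξ ≠ ω') : mob l a ξ ≠ ω' ∧
    (mob l a ξ - ω) / (mob l a ξ - ω') = α * ((ξ - ω) / (ξ - ω')) := by
  have d1 := den_ne' ha hω.le
  have d2 := den_ne' ha hω'.le
  have d3 := den_ne' ha hξ.le
  have hl0 : l ≠ 0 := norm_ne_zero_iff.1 (by simp [hl])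
  have hN : ((1 - ‖a‖ ^ 2 : ℝ) : ℂ) ≠ 0 := ofReal_ne_zero.2 (one_sub_pos ha).ne'
  have e1 := mob_sub (l := l) ha hξ.le hω.le
  have e2 := mob_sub (l := l) ha hξ.le hω'.le
  have e3 := mob_sub (l := l) ha hω'.le hω.le
  rw [f1] at e1 e3
  rw [f2] at e2 e3
  have hd := sub_ne_zero.2 hne
  have hd' := sub_ne_zero.2 hξ'
  have e4 : (1 - conj a * ω') * (1 - conj a * ω) = l * ((1 - ‖a‖ ^ 2 : ℝ) : ℂ) := by
    rw [eq_div_iff (mul_ne_zero d2 d1)] at e3
    exact mul_left_cancel₀ hd (by linear_combination e3)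
  have h2 : ω * conj ω = 1 := by rw [mul_conj, normSq_eq_norm_sq, hω]; simp
  have e5 : l * (1 - a * conj ω) = 1 - conj a * ω := by
    rw [mob, div_eq_iff d1] at f1
    linear_combination conj ω * f1 - (l - (1 - conj a * ω)) * h2
  have e6 : (α : ℂ) * ((1 - conj a * ω) * (1 - a * conj ω)) = ((1 - ‖a‖ ^ 2 : ℝ) : ℂ) := by
    have h3 : (1 - conj a * ω) * (1 - a * conj ω) = ((‖1 - conj a * ω‖ ^ 2 : ℝ) : ℂ) := by
      rw [← normSq_eq_norm_sq, ← mul_conj]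
      simp
    rw [h3, ← ofReal_mul, ← hj, jac, div_mul_cancel₀ _ (pow_ne_zero 2 (norm_ne_zero_iff.2 d1))]
  have e7 : 1 - conj a * ω' = α * (1 - conj a * ω) :=
    mul_right_cancel₀ d1 (by
      linear_combination e4 - l * e6 + (α : ℂ) * (1 - conj a * ω) * e5)
  refine ⟨sub_ne_zero.1 (e2 ▸ div_ne_zero (mul_ne_zero (mul_ne_zero hl0 hN) hd')
    (mul_ne_zero d3 d2)), ?_⟩
  have hα : (α : ℂ) ≠ 0 := fun h => d2 (by rw [e7, h, zero_mul])
  rw [e1, e2, e7]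
  generalize 1 - conj a * ξ = P at d3 ⊢
  generalize 1 - conj a * ω = Q at d1 ⊢
  generalize ((1 - ‖a‖ ^ 2 : ℝ) : ℂ) = N at hN ⊢
  field_simp

theorem mid_not (h0 : 2 / 5 ≤ α) (hα1 : α < 1) (hd : ‖ω - ω'‖ ^ 2 < 4 + α - 1 / α) :
    ¬ ∀ (k : ℕ) (ζ : ℂ), ‖ζ‖ = 1 → 0 < frac (autμ l a) (2 / √α) k ζ := fun hp => by
  have hα : 0 < α := by linarith
  have hs : 0 < √α := Real.sqrt_pos.2 hα
  have hs2 : √α ^ 2 = α := Real.sq_sqrt hα.le
  set D := ‖ω - ω'‖ ^ 2 with hD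
  have hD0 : 0 < D := pow_pos (norm_pos_iff.2 (sub_ne_zero.2 hne.symm)) 2
  have hd2 : 1 - α ^ 2 < α * (4 - D) := by
    have := mul_lt_mul_of_pos_left hd hα
    rw [mul_sub, mul_one_div_cancel hα.ne'] at this
    linarith
  have hD4 : 0 < 1 - D / 4 := by nlinarith
  set c := √(1 - D / 4) with hcdef
  have hc : 0 < c := Real.sqrt_pos.2 hD4
  have hc2 : c ^ 2 = 1 - D / 4 := Real.sq_sqrt hD4.le
  obtain ⟨m, hm⟩ := exists_pow_lt_of_lt_one (lt_min hc (show 0 < α * c * c / 3 by positivity)) hα1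
  have hpm : 0 < α ^ m := by positivity
  have hb : ∀ j, ‖(imob l a)^[j] (-ω')‖ = 1 ∧ (mob l a)^[j] ((imob l a)^[j] (-ω')) = -ω' := by
    intro j
    induction j with
    | zero => simpa using hω'
    | succ j ih =>
      rw [Function.iterate_succ_apply', Function.iterate_succ_apply, mob_imob hl ha ih.1]
      exact ⟨imob_unit hl ha ih.1, ih.2⟩
  set ζ : ℕ → ℂ := fun k => (mob l a)^[k] ((imob l a)^[m] (-ω')) with hζ
  have hζ1 : ∀ k, ζ (k + 1) = mob l a (ζ k) := fun k => Function.iterate_succ_apply' _ _ _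
  have hζm : ζ m = -ω' := (hb m).2
  have hω0 : ω' ≠ 0 := norm_ne_zero_iff.1 (by simp [hω'])
  have h00 : ζ 0 ≠ ω' := fun e => by
    have h1 : ζ m = ω' := by
      simp only [hζ] at e ⊢
      rw [show (imob l a)^[m] (-ω') = ω' from e, Function.iterate_fixed f2]
    exact hω0 (by linear_combination (h1 - hζm) / 2 * (-1))
  have hall : ∀ k, ‖ζ k‖ = 1 ∧ ζ k ≠ ω' ∧
      (ζ k - ω) / (ζ k - ω') = ((α ^ k : ℝ) : ℂ) * ((ζ 0 - ω) / (ζ 0 - ω')) := by
    intro k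
    induction k with
    | zero => exact ⟨(hb m).1, h00, by simp⟩
    | succ k ih =>
      obtain ⟨r1, r2⟩ := ratio_mob hl ha hω hω' hne f1 f2 hj ih.1 ih.2.1
      rw [hζ1]
      refine ⟨mob_unit hl ha ih.1, r1, ?_⟩
      rw [r2, ih.2.2]
      push_cast
      ring
  set y := (ζ 0 - ω) / (ζ 0 - ω') with hy
  have hq : ∀ k, D / ‖ζ k - ω'‖ ^ 2 = 1 - 2 * (α ^ k * y.re) + (α ^ k) ^ 2 * normSq y := by
    intro k
    obtain ⟨-, r1, r2⟩ := hall k
    have h1 : (ω - ω') / (ζ k - ω') = 1 - ((α ^ k : ℝ) : ℂ) * y := by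
      rw [← r2]
      have := sub_ne_zero.2 r1
      field_simp
      ring
    rw [hD, ← div_pow, ← norm_div, h1, ← normSq_eq_norm_sq, normSq_apply, normSq_apply]
    simp only [sub_re, sub_im, one_re, one_im, re_ofReal_mul, im_ofReal_mul]
    ring
  have h4 : ‖ζ m - ω'‖ ^ 2 = 4 := by
    rw [hζm, show -ω' - ω' = -2 * ω' by ring, norm_mul, hω']
    norm_num
  have hn : (α ^ m) ^ 2 * normSq y = c ^ 2 := by
    have h1 := congrArg normSq (hall m).2.2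
    rw [normSq_mul, normSq_ofReal, normSq_div, normSq_eq_norm_sq (ζ m - ω'), h4, hζm] at h1
    have h2 := parallelogram_law_with_norm ℝ ω ω'
    have h3 : normSq (-ω' - ω) = ‖ω + ω'‖ ^ 2 := by
      rw [normSq_eq_norm_sq, show -ω' - ω = -(ω + ω') by ring, norm_neg]
    rw [hω, hω'] at h2
    rw [hc2, hD]
    nlinarith
  have hr : α ^ m * y.re = c ^ 2 := by
    have h1 := hq m
    rw [h4, hn] at h1
    linarith
  refine core (X := c / α ^ m) h0 hα1 hc (by nlinarith) ?_ ?_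
    (fun k => √α * frac (autμ l a) (2 / √α) k (ζ k) * (D / ‖ζ k - ω'‖ ^ 2))
    (fun k => D / ‖ζ k - ω'‖ ^ 2) (fun k => ?_) (fun k => ?_) (fun k => ?_) ?_
  · exact (one_le_div hpm).2 (hm.le.trans (min_le_left _ _))
  · rw [← mul_div_assoc, le_div_iff₀ hpm]
    linarith [hm.le.trans (min_le_right _ _)]
  · have h1 : y.re = c ^ 2 / α ^ m := by rw [← hr]; field_simp
    have h2 : normSq y = c ^ 2 / (α ^ m) ^ 2 := by rw [← hn]; field_simp
    rw [hq, h1, h2]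
    ring
  · have := pow_pos (norm_pos_iff.2 (sub_ne_zero.2 (hall k).2.1)) 2
    exact mul_pos (mul_pos hs (hp _ _ (hall k).1)) (div_pos hD0 this)
  · have h8 := hp k _ (hall k).1
    have h9 := pow_pos (norm_pos_iff.2 (sub_ne_zero.2 (hall k).2.1)) 2
    have h10 := pow_pos (norm_pos_iff.2 (sub_ne_zero.2 (hall (k + 1)).2.1)) 2
    have h11 := (orbit hl ha hω hω' hne f1 f2 hj (hall k).1).2
    rw [← hζ1] at h11
    have h12 : jac a (ζ k) = √α ^ 2 * ‖ζ (k + 1) - ω'‖ ^ 2 / ‖ζ k - ω'‖ ^ 2 := by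
      rw [hs2, h11, mul_div_cancel_right₀ _ h9.ne']
    have h13 := frac_mob (E := 2 / √α) hl ha (hall k).1 k
    rw [← hζ1, h12] at h13
    simp only [h13]
    generalize ‖ζ (k + 1) - ω'‖ ^ 2 = q' at h10 ⊢
    generalize ‖ζ k - ω'‖ ^ 2 = q at h9 ⊢
    field_simp
  · have : frac (autμ l a) (2 / √α) 0 (ζ 0) = 2 / √α := rfl
    simp only [this]
    rw [mul_div_cancel₀ _ hs.ne']

end

theorem narrow_iff (hφ : IsInnerFn φ) (hω : ‖ω‖ = 1) (hα1 : α < 1)
    (hder : Tendsto (fun r : ℝ => (φ (r * ω) - ω) / (r * ω - ω)) (𝓝[<] 1) (𝓝 α))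
    (hgap : ∀ l a ω' : ℂ, ‖l‖ = 1 → ‖a‖ < 1 → (∀ z : ℂ, ‖z‖ < 1 → φ z = mob l a z) → ‖ω'‖ = 1 →
      ω' ≠ ω → mob l a ω' = ω' → ‖ω - ω'‖ ^ 2 ≤ 2 ∨ ‖ω - ω'‖ ^ 2 < 4 + α - 1 / α ∨
        2 * (1 + α) ≤ ‖ω - ω'‖ ^ 2) :
    sSup (norm '' numRange φ) = 1 / √α ↔ ∃ l a ω' : ℂ, ‖l‖ = 1 ∧ ‖a‖ < 1 ∧
      (∀ z : ℂ, ‖z‖ < 1 → φ z = mob l a z) ∧ ‖ω'‖ = 1 ∧ ω' ≠ ω ∧ mob l a ω' = ω' ∧
      2 * (1 + α) ≤ ‖ω - ω'‖ ^ 2 := by
  refine ⟨fun h => ?_, fun ⟨l, a, ω', hl, ha, he, hω', hne, f2, hd⟩ =>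
    (closed_form hφ hω hα1 hder hl ha he hω' hne f2).1 hd⟩
  obtain ⟨l, a, hl, ha, he⟩ := (hyp_lower hφ hω hder).2 h
  obtain ⟨f1, hj⟩ := der_eq hl ha he hω (iterate_bound hφ.1 hφ.2.1 hω hder).1 hder
  obtain ⟨ω', hω', hne, f2⟩ := second_fixed hl ha hω f1 (hj ▸ hα1.ne)
  have hα : 0 < α := hj ▸ jac_pos ha hω.le
  have h2 : ¬ ‖ω - ω'‖ ^ 2 ≤ 2 :=
    fun hd => ((closed_form hφ hω hα1 hder hl ha he hω' hne f2).2 hd).ne' h
  refine ⟨l, a, ω', hl, ha, he, hω', hne, f2,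
    ((hgap l a ω' hl ha he hω' hne f2).resolve_left h2).resolve_left fun hd => ?_⟩
  rcases le_total (2 / 5) α with h0 | h0
  · refine mid_not hl ha hω hω' hne f1 f2 hj h0 hα1 hd ?_
    rw [← mul_one_div 2, ← h]
    exact (radius hφ (autμ_clark hl ha he)).1.1
  · have : 5 / 2 ≤ 1 / α := by
      rw [le_div_iff₀ hα]
      linarith
    exact h2 (by linarith)

end Pool.Agent.Work.MP_f96e05_an.NR
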