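import Pool.Agent.Work.MP_f96e05_an.NR2.Gap

/-!
The scalar model of the continued fraction of a hyperbolic automorphism and its threshold.
-/

set_option autoImplicit false

open Filter Topology

namespace Pool.Agent.Work.MP_f96e05_an.NR

/-- the weight along the line -/
def uu (c x : ℝ) : ℝ := 1 - 2 * c * x + x ^ 2

/-- the rescaled approximants -/
noncomputable def tt (α c : ℝ) : ℕ → ℝ → ℝ
  | 0, x => 2 * uu c x
  | k + 1, x => 2 * uu c x - uu c x ^ 2 / tt α c k (x / α)

/-- the parameters with positive approximants -/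
def PP (α : ℝ) : Set ℝ := {c | ∀ k x, 0 < tt α c k x}

variable {α c : ℝ}

theorem uu_pos (hc : c ^ 2 < 1) (x : ℝ) : 0 < uu c x := by
  unfold uu
  nlinarith [sq_nonneg (x - c)]

theorem tt_neg (k : ℕ) (x : ℝ) : tt α (-c) k x = tt α c k (-x) := by
  have hu : ∀ x, uu (-c) x = uu c (-x) := fun x => by
    unfold uu
    ring
  induction k generalizing x with
  | zero => simp only [tt, hu]
  | succ k ih => simp only [tt, hu, ih, neg_div]

theorem PP_convex : Convex ℝ (PP α) := by
  intro c₁ h₁ c₂ h₂ s t hs ht hst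
  have hpos : ∀ k x, 0 < s * tt α c₁ k x + t * tt α c₂ k x := fun k x => by
    have := h₁ k x
    have := h₂ k x
    rcases hs.eq_or_lt with e | e
    · have : t = 1 := by linarith
      subst e this
      simpa using h₂ k x
    · positivity
  have hu : ∀ x, uu (s * c₁ + t * c₂) x = s * uu c₁ x + t * uu c₂ x := fun x => by
    unfold uu
    linear_combination (-1 - x ^ 2) * hst
  have key : ∀ k x, s * tt α c₁ k x + t * tt α c₂ k x ≤ tt α (s * c₁ + t * c₂) k x := by
    intro k
    induction k with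
    | zero =>
      intro x
      simp only [tt, hu]
      linarith
    | succ k ih =>
      intro x
      have a1 := h₁ k (x / α)
      have a2 := h₂ k (x / α)
      have a3 := hpos k (x / α)
      have a4 := div_le_div_of_nonneg_left (sq_nonneg (s * uu c₁ x + t * uu c₂ x)) a3 (ih (x / α))
      simp only [tt, hu]
      generalize tt α c₁ k (x / α) = T₁ at a1 a3 a4 ⊢
      generalize tt α c₂ k (x / α) = T₂ at a2 a3 a4 ⊢
      obtain ⟨p, hp⟩ : ∃ p, uu c₁ x = p * T₁ := ⟨_, (div_mul_cancel₀ _ a1.ne').symm⟩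
      obtain ⟨q, hq⟩ : ∃ q, uu c₂ x = q * T₂ := ⟨_, (div_mul_cancel₀ _ a2.ne').symm⟩
      rw [hp, hq] at a4 ⊢
      have e1 : (p * T₁) ^ 2 / T₁ = p ^ 2 * T₁ := by field_simp
      have e2 : (q * T₂) ^ 2 / T₂ = q ^ 2 * T₂ := by field_simp
      have a5 : (s * (p * T₁) + t * (q * T₂)) ^ 2 / (s * T₁ + t * T₂) ≤
          s * (p ^ 2 * T₁) + t * (q ^ 2 * T₂) := by
        rw [div_le_iff₀ a3]
        have : 0 ≤ s * t * T₁ * T₂ * (p - q) ^ 2 := by positivity
        nlinarith
      rw [e1, e2]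
      linarith
  exact fun k x => (hpos k x).trans_le (key k x)

theorem PP_mono {c' : ℝ} (h : c ∈ PP α) (hc : c' ^ 2 ≤ c ^ 2) : c' ∈ PP α := by
  have h' : -c ∈ PP α := fun k x => by
    rw [tt_neg]
    exact h k _
  have h1 := abs_le.1 (sq_le_sq.1 hc)
  rcases abs_cases c with e | e
  · exact PP_convex.ordConnected.out h' h ⟨by linarith [h1.1, e.1], by linarith [h1.2, e.1]⟩
  · exact PP_convex.ordConnected.out h h' ⟨by linarith [h1.1, e.1], by linarith [h1.2, e.1]⟩

theorem PP_closed (hα : 0 < α) (hc : c ^ 2 < 1) (h : c ∈ closure (PP α)) : c ∈ PP α := by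
  have hu : ∀ x, Continuous fun c => uu c x := fun x => by
    unfold uu
    fun_prop
  have hpos : ∀ k x, ContinuousAt (fun c => tt α c k x) c → 0 < tt α c k x := fun k x hk => by
    have h1 := uu_pos hc (α * x)
    have h2 : uu c (α * x) ^ 2 ≤ 2 * uu c (α * x) * tt α c k x :=
      ContinuousWithinAt.closure_le (f := fun c => uu c (α * x) ^ 2)
        (g := fun c => 2 * uu c (α * x) * tt α c k x) h
        ((hu _).pow 2).continuousWithinAt
        (((hu _).continuousAt.const_mul 2).mul hk).continuousWithinAt fun y hy => by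
          have h3 := hy (k + 1) (α * x)
          simp only [tt, mul_div_cancel_left₀ x hα.ne'] at h3
          exact ((div_lt_iff₀ (hy k x)).1 (sub_pos.1 h3)).le
    nlinarith
  have hcont : ∀ k x, ContinuousAt (fun c => tt α c k x) c := fun k => by
    induction k with
    | zero => exact fun x => (hu x).continuousAt.const_mul 2
    | succ k ih =>
      exact fun x => ((hu x).continuousAt.const_mul 2).sub
        (((hu x).continuousAt.pow 2).div (ih _) (hpos k _ (ih _)).ne')
  exact fun k x => hpos k x (hcont k x)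

theorem PP_far (hα : 0 < α) (h1 : α < 1) (hc : 2 * c ^ 2 ≤ 1 - α) : c ∈ PP α := by
  have key : ∀ k x, 1 + α * x ^ 2 ≤ tt α c k x := fun k => by
    induction k with
    | zero =>
      intro x
      simp only [tt, uu]
      nlinarith [sq_nonneg (x - 2 * c), mul_nonneg (sub_pos.2 h1).le (sq_nonneg x),
        sq_nonneg (2 * (1 - α) * x - 2 * c), sq_nonneg ((2 - α) * x - 2 * c)]
    | succ k ih =>
      intro x
      obtain ⟨z, rfl⟩ : ∃ z, x = α * z := ⟨x / α, by field_simp⟩
      have h2 : 0 < 1 + α * z ^ 2 := by positivity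
      have h3 := div_le_div_of_nonneg_left (sq_nonneg (uu c (α * z))) h2 (ih z)
      have h4 : uu c (α * z) ^ 2 / (1 + α * z ^ 2) ≤
          2 * uu c (α * z) - (1 + α * (α * z) ^ 2) := by
        rw [div_le_iff₀ h2, uu]
        have h5 : 0 ≤ α * z ^ 2 * (2 * (1 - α) * (α * z - c) ^ 2 +
            (1 + α) * (1 - α - 2 * c ^ 2)) :=
          mul_nonneg (by positivity) (add_nonneg (mul_nonneg (by linarith) (sq_nonneg _))
            (mul_nonneg (by linarith) (by linarith)))
        linarith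
      simp only [tt, mul_div_cancel_left₀ z hα.ne']
      linarith
  exact fun k x => lt_of_lt_of_le (by positivity) (key k x)

theorem tt_step (hα : 0 < α) (X : ℝ) (k : ℕ) : tt α c (k + 1) (α ^ (k + 1) * X) =
    2 * uu c (α ^ (k + 1) * X) - uu c (α ^ (k + 1) * X) ^ 2 / tt α c k (α ^ k * X) := by
  rw [tt, show α ^ (k + 1) * X / α = α ^ k * X by field_simp; ring]

theorem PP_half (hα : 0 < α) (h1 : α < 1) (h : c ∈ PP α) : 2 * c ^ 2 < 1 := by
  set T : ℕ → ℝ := fun k => tt α c k (α ^ k * c) with hTd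
  have hT : ∀ k, 0 < T k := fun k => h _ _
  have hid : ∀ k, T k * (T k - T (k + 1)) = (T k - uu c (α ^ (k + 1) * c)) ^ 2 := fun k => by
    have := (hT k).ne'
    simp only [hTd] at this ⊢
    rw [tt_step hα]
    field_simp
    ring
  have hanti : Antitone T := antitone_nat_of_succ_le fun k => by
    have := (mul_nonneg_iff_of_pos_left (hT k)).1 (hid k ▸ sq_nonneg _)
    linarith
  have hlim := tendsto_atTop_ciInf hanti ⟨0, by rintro _ ⟨k, rfl⟩; exact (hT k).le⟩
  set t := ⨅ k, T k
  have hut : Tendsto (fun k => uu c (α ^ (k + 1) * c)) atTop (𝓝 1) := by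
    have hxt : Tendsto (fun k => α ^ (k + 1) * c) atTop (𝓝 0) := by
      simpa [Function.comp_def] using
        ((tendsto_pow_atTop_nhds_zero_of_lt_one hα.le h1).mul_const c).comp
          (tendsto_add_atTop_nat 1)
    simpa [uu] using ((hxt.const_mul (2 * c)).const_sub 1).add (hxt.pow 2)
  have h13 := tendsto_nhds_unique ((hlim.mul (hlim.sub (hlim.comp (tendsto_add_atTop_nat 1)))).congr
    hid) ((hlim.sub hut).pow 2)
  have ht : t = 1 := by
    rw [sub_self, mul_zero] at h13
    exact sub_eq_zero.1 (pow_eq_zero_iff two_ne_zero |>.1 h13.symm)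
  rw [ht] at hlim
  have h2 : 1 ≤ T 1 := hanti.le_of_tendsto hlim 1
  have h3 : T 1 ≤ T 0 := hanti zero_le_one
  have h4 : T 0 = 2 * (1 - c ^ 2) := by
    simp only [hTd, tt, uu]
    ring
  by_contra h5
  have h6 : T 0 = 1 := by linarith
  have h7 := hid 0
  rw [show T (0 + 1) = 1 by linarith, h6, uu] at h7
  have h8 : 2 * c ^ 2 = 1 := by linarith
  have h9 : α * (2 - α) * c ^ 2 = 0 :=
    pow_eq_zero_iff two_ne_zero |>.1 (by linear_combination -h7)
  have h10 : 0 < α * (2 - α) := mul_pos hα (by linarith)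
  nlinarith

theorem PP_mid (h0 : 2 / 5 ≤ α) (h1 : α < 1) (hc : 0 < c) (h : c ∈ PP α) :
    4 * α * c ^ 2 ≤ 1 - α ^ 2 := by
  have hα : 0 < α := by linarith
  by_contra h2
  refine core (X := max 1 (3 / (α * c))) h0 h1 hc (not_le.1 h2) (le_max_left _ _) ?_
    (fun k => tt α c k (α ^ k * max 1 (3 / (α * c))))
    (fun k => uu c (α ^ k * max 1 (3 / (α * c)))) (fun k => rfl) (fun k => h _ _)
    (fun k => tt_step hα _ k) rfl
  rw [mul_comm]
  exact (div_le_iff₀ (by positivity)).1 (le_max_right _ _)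

theorem thresh (hα : 0 < α) (h1 : α < 1) : ∃ Δ : ℝ, (2 < Δ ∧ 4 + α - 1 / α ≤ Δ ∧
    Δ ≤ 2 * (1 + α)) ∧ ∀ c, c ∈ PP α ↔ Δ ≤ 4 * (1 - c ^ 2) := by
  have h2 : 0 < (1 - α) / 2 := by linarith
  have h3 : √((1 - α) / 2) ∈ PP α := PP_far hα h1 (by rw [Real.sq_sqrt h2.le]; linarith)
  have hb : BddAbove (PP α) := ⟨1, fun c hc => by nlinarith [PP_half hα h1 hc]⟩
  have h4 := le_csSup hb h3
  have h5 := Real.sqrt_pos.2 h2
  have h6 := csSup_mem_closure ⟨_, h3⟩ hb
  have h7 : sSup (PP α) ≤ 3 / 4 := csSup_le ⟨_, h3⟩ fun c hc => by nlinarith [PP_half hα h1 hc]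
  have h8 := PP_closed hα (by nlinarith) h6
  have h9 := PP_half hα h1 h8
  have h10 := pow_le_pow_left₀ h5.le h4 2
  rw [Real.sq_sqrt h2.le] at h10
  refine ⟨4 * (1 - sSup (PP α) ^ 2), ⟨by linarith, ?_, by linarith⟩, fun c => ⟨fun hc => ?_,
    fun hc => PP_mono h8 (by linarith)⟩⟩
  · rcases le_total (2 / 5) α with h0 | h0
    · have h11 := PP_mid h0 h1 (h5.trans_le h4) h8
      have h12 : 4 * sSup (PP α) ^ 2 + α ≤ 1 / α := by
        rw [le_div_iff₀ hα]
        linarith
      linarith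
    · have : 5 / 2 ≤ 1 / α := by
        rw [le_div_iff₀ hα]
        linarith
      linarith
  · have h11 := pow_le_pow_left₀ (abs_nonneg c) (le_csSup hb (PP_mono hc (sq_abs c).le)) 2
    rw [sq_abs] at h11
    linarith

end Pool.Agent.Work.MP_f96e05_an.NR
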