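import Pool.Agent.Work.MP_f96e05_an.NR2.Model

/-!
From a hyperbolic automorphism to the scalar model, and the threshold for the closed form.
-/

set_option autoImplicit false

open Filter Topology Complex
open scoped ComplexConjugate

namespace Pool.Agent.Work.MP_f96e05_an.NR

variable {φ : ℂ → ℂ} {l a ω ω' θ ζ : ℂ} {α x : ℝ}

theorem conj_unit (h : ‖ζ‖ = 1) : conj ζ = ζ⁻¹ :=
  eq_inv_of_mul_eq_one_right (by rw [mul_conj, normSq_eq_norm_sq, h]; simp)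

theorem uu_eq (hθ : ‖θ‖ = 1) (x : ℝ) : normSq (1 - x * θ) = uu θ.re x := by
  have h : θ.re * θ.re + θ.im * θ.im = 1 := by rw [← normSq_apply, normSq_eq_norm_sq, hθ]; simp
  rw [normSq_apply, uu]
  simp only [sub_re, sub_im, one_re, one_im, re_ofReal_mul, im_ofReal_mul]
  linear_combination x ^ 2 * h

theorem dist_eq (hθ : ‖θ‖ = 1) (hω' : ‖ω'‖ = 1) :
    ‖θ * θ * ω' - ω'‖ ^ 2 = 4 * (1 - θ.re ^ 2) := by
  have h : θ.re * θ.re + θ.im * θ.im = 1 := by rw [← normSq_apply, normSq_eq_norm_sq, hθ]; simp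
  rw [← sub_one_mul, norm_mul, hω', mul_one, ← normSq_eq_norm_sq, normSq_apply]
  simp only [sub_re, sub_im, one_re, one_im, mul_re, mul_im]
  linear_combination (θ.re ^ 2 + θ.im ^ 2 + 3) * h

theorem weight_eq (hθ : ‖θ‖ = 1) (h1 : ζ ≠ ω') (h2 : (ζ - ω) / (ζ - ω') = x * θ) :
    ‖ω - ω'‖ ^ 2 / ‖ζ - ω'‖ ^ 2 = uu θ.re x := by
  have h3 : (ω - ω') / (ζ - ω') = 1 - x * θ := by
    rw [← h2]
    have := sub_ne_zero.2 h1
    field_simp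
    ring
  rw [← div_pow, ← norm_div, h3, ← normSq_eq_norm_sq, uu_eq hθ]

theorem coord_of (hθ : ‖θ‖ = 1) (hω' : ‖ω'‖ = 1) (hζ : ‖ζ‖ = 1) (h1 : ζ ≠ ω') :
    ∃ x : ℝ, (ζ - θ * θ * ω') / (ζ - ω') = x * θ := by
  have a1 : θ ≠ 0 := norm_ne_zero_iff.1 (by simp [hθ])
  have a2 : ω' ≠ 0 := norm_ne_zero_iff.1 (by simp [hω'])
  have a3 : ζ ≠ 0 := norm_ne_zero_iff.1 (by simp [hζ])
  have a4 := sub_ne_zero.2 h1
  have e1 : conj (ζ - ω') = -(ζ - ω') / (ζ * ω') := by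
    rw [map_sub, conj_unit hζ, conj_unit hω']
    field_simp
    ring
  have e2 : conj (ζ - θ * θ * ω') = -(ζ - θ * θ * ω') / (ζ * (θ * θ * ω')) := by
    rw [map_sub, map_mul, map_mul, conj_unit hζ, conj_unit hω', conj_unit hθ]
    field_simp
    ring
  obtain ⟨x, hx⟩ := (conj_eq_iff_real (z := (ζ - θ * θ * ω') / (ζ - ω') / θ)).1 (by
    rw [map_div₀, map_div₀, e1, e2, conj_unit hθ]
    generalize ζ - ω' = P at a4 ⊢
    generalize ζ - θ * θ * ω' = Q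
    field_simp)
  exact ⟨x, (div_eq_iff a1).1 hx⟩

theorem point_of (hθ : ‖θ‖ = 1) (hω' : ‖ω'‖ = 1) (hne : ω' ≠ θ * θ * ω') (x : ℝ) :
    ∃ ζ : ℂ, ‖ζ‖ = 1 ∧ ζ ≠ ω' ∧ (ζ - θ * θ * ω') / (ζ - ω') = x * θ := by
  have a1 : θ ≠ 0 := norm_ne_zero_iff.1 (by simp [hθ])
  have a2 := sub_ne_zero.2 hne.symm
  have a3 : 0 < ‖θ * θ * ω' - ω'‖ ^ 2 := pow_pos (norm_pos_iff.2 a2) 2
  rw [dist_eq hθ hω'] at a3
  have a4 : 1 - x * θ ≠ 0 := by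
    rw [← normSq_pos, uu_eq hθ]
    exact uu_pos (by linarith) x
  have e1 : (θ * θ * ω' - x * θ * ω') / (1 - x * θ) - ω' = (θ * θ * ω' - ω') / (1 - x * θ) := by
    rw [eq_div_iff a4, sub_mul, div_mul_cancel₀ _ a4]
    ring
  have e2 : (θ * θ * ω' - x * θ * ω') / (1 - x * θ) - θ * θ * ω' =
      x * θ * ((θ * θ * ω' - ω') / (1 - x * θ)) := by
    rw [← mul_div_assoc, eq_div_iff a4, sub_mul, div_mul_cancel₀ _ a4]
    ring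
  refine ⟨(θ * θ * ω' - x * θ * ω') / (1 - x * θ), ?_,
    sub_ne_zero.1 (e1 ▸ div_ne_zero a2 a4), ?_⟩
  · have e3 : 1 - x * θ = θ * conj (θ - x) := by
      rw [map_sub, conj_ofReal, conj_unit hθ, mul_sub, mul_inv_cancel₀ a1, mul_comm]
    rw [norm_div, div_eq_one_iff_eq (norm_ne_zero_iff.2 a4), e3,
      show θ * θ * ω' - x * θ * ω' = θ * (θ - x) * ω' by ring, norm_mul, norm_mul, norm_mul,
      norm_conj, hω', mul_one]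
  · rw [e1, e2, mul_div_cancel_right₀ _ (div_ne_zero a2 a4)]

section
variable (hl : ‖l‖ = 1) (ha : ‖a‖ < 1) (hω : ‖ω‖ = 1) (hω' : ‖ω'‖ = 1) (hne : ω' ≠ ω)
  (f1 : mob l a ω = ω) (f2 : mob l a ω' = ω') (hj : jac a ω = α)
include hl ha hω hω' hne f1 f2 hj

theorem frac_tt (hθ : ‖θ‖ = 1) (k : ℕ) : ∀ (ζ : ℂ) (x : ℝ), ‖ζ‖ = 1 → ζ ≠ ω' →
    (ζ - ω) / (ζ - ω') = x * θ →
    tt α θ.re k x = √α * uu θ.re x * frac (autμ l a) (2 / √α) k ζ := by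
  have hα : 0 < α := hj ▸ jac_pos ha hω.le
  have hs : 0 < √α := Real.sqrt_pos.2 hα
  have hs2 : √α ^ 2 = α := Real.sq_sqrt hα.le
  have hD0 : 0 < ‖ω - ω'‖ ^ 2 := pow_pos (norm_pos_iff.2 (sub_ne_zero.2 hne.symm)) 2
  induction k with
  | zero =>
    intro ζ x _ _ _
    have : frac (autμ l a) (2 / √α) 0 ζ = 2 / √α := rfl
    rw [this, tt]
    field_simp
  | succ k ih =>
    intro ζ x hζ h1 h2
    obtain ⟨ξ, hξ, rfl⟩ : ∃ ξ, ‖ξ‖ = 1 ∧ mob l a ξ = ζ :=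
      ⟨_, imob_unit hl ha hζ, mob_imob hl ha hζ⟩
    have h3 : ξ ≠ ω' := fun e => h1 (e ▸ f2)
    have h4 : (ξ - ω) / (ξ - ω') = ((x / α : ℝ) : ℂ) * θ := by
      have h5 := (ratio_mob hl ha hω hω' hne f1 f2 hj hξ h3).2
      have h6 : (α : ℂ) ≠ 0 := ofReal_ne_zero.2 hα.ne'
      rw [h2] at h5
      push_cast
      rw [div_mul_eq_mul_div, eq_div_iff h6, h5, mul_comm]
    have h9 := pow_pos (norm_pos_iff.2 (sub_ne_zero.2 h3)) 2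
    have h10 := pow_pos (norm_pos_iff.2 (sub_ne_zero.2 h1)) 2
    have h11 := (orbit hl ha hω hω' hne f1 f2 hj hξ).2
    have h12 : jac a ξ = √α ^ 2 * ‖mob l a ξ - ω'‖ ^ 2 / ‖ξ - ω'‖ ^ 2 := by
      rw [hs2, h11, mul_div_cancel_right₀ _ h9.ne']
    rw [tt, ih ξ _ hξ h3 h4, frac_mob hl ha hξ, h12, ← weight_eq hθ h3 h4, ← weight_eq hθ h1 h2,
      div_eq_mul_inv _ (_ * frac _ _ _ _), mul_inv]
    generalize (frac (autμ l a) (2 / √α) k ξ)⁻¹ = ρ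
    generalize ‖mob l a ξ - ω'‖ ^ 2 = q' at h10 ⊢
    generalize ‖ξ - ω'‖ ^ 2 = q at h9 ⊢
    generalize ‖ω - ω'‖ ^ 2 = D at hD0 ⊢
    field_simp

theorem frac_rep (hα1 : α < 1) (k : ℕ) : 1 ≤ frac (autμ l a) (2 / √α) k ω' := by
  have hα : 0 < α := hj ▸ jac_pos ha hω.le
  have hE : 2 ≤ 2 / √α := by
    rw [le_div_iff₀ (Real.sqrt_pos.2 hα)]
    linarith [Real.sqrt_le_one.2 hα1.le]
  have h3 := mob_dist hl ha hω'.le hω.le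
  rw [f1, hj, f2] at h3
  have h4 : (jac a ω')⁻¹ = α := inv_eq_of_mul_eq_one_right
    ((mul_eq_right₀ (pow_ne_zero 2 (norm_ne_zero_iff.2 (sub_ne_zero.2 hne)))).1 h3.symm)
  induction k with
  | zero => exact le_trans one_le_two hE
  | succ k ih =>
    have h5 := frac_mob (E := 2 / √α) hl ha hω' k
    rw [f2, h4] at h5
    have h6 := mul_le_mul_of_nonneg_left (inv_le_one_of_one_le₀ ih) hα.le
    linarith

theorem bridge (hα1 : α < 1) : ∃ c : ℝ, ‖ω - ω'‖ ^ 2 = 4 * (1 - c ^ 2) ∧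
    ((∀ (k : ℕ) (ζ : ℂ), ‖ζ‖ = 1 → 0 < frac (autμ l a) (2 / √α) k ζ) ↔ c ∈ PP α) := by
  have hα : 0 < α := hj ▸ jac_pos ha hω.le
  have hs : 0 < √α := Real.sqrt_pos.2 hα
  have a2 : ω' ≠ 0 := norm_ne_zero_iff.1 (by simp [hω'])
  obtain ⟨θ, h⟩ := IsAlgClosed.exists_eq_mul_self (ω / ω')
  have hθ : ‖θ‖ = 1 := by
    have := congrArg norm h
    rw [norm_div, hω, hω', norm_mul] at this
    nlinarith [norm_nonneg θ]
  obtain rfl : ω = θ * θ * ω' := (div_eq_iff a2).1 h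
  have a3 : 0 < ‖θ * θ * ω' - ω'‖ ^ 2 := pow_pos (norm_pos_iff.2 (sub_ne_zero.2 hne.symm)) 2
  rw [dist_eq hθ hω'] at a3
  have hu := fun x => mul_pos hs (uu_pos (c := θ.re) (by linarith) x)
  refine ⟨θ.re, dist_eq hθ hω', fun hp k x => ?_, fun hp k ζ hζ => ?_⟩
  · obtain ⟨ζ, b1, b2, b3⟩ := point_of hθ hω' hne x
    rw [frac_tt hl ha hω hω' hne f1 f2 hj hθ k ζ x b1 b2 b3]
    exact mul_pos (hu x) (hp k ζ b1)
  · by_cases b2 : ζ = ω'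
    · exact b2 ▸ one_pos.trans_le (frac_rep hl ha hω hω' hne f1 f2 hj hα1 k)
    · obtain ⟨x, b3⟩ := coord_of hθ hω' hζ b2
      have := hp k x
      rw [frac_tt hl ha hω hω' hne f1 f2 hj hθ k ζ x hζ b2 b3] at this
      exact (mul_pos_iff_of_pos_left (hu x)).1 this

end

theorem thresh_iff : ∃ Δ : ℝ → ℝ,
    (∀ α : ℝ, 0 < α → α < 1 → 2 < Δ α ∧ 4 + α - 1 / α ≤ Δ α ∧ Δ α ≤ 2 * (1 + α)) ∧
    ∀ (φ : ℂ → ℂ) (ω : ℂ) (α : ℝ), IsInnerFn φ → ‖ω‖ = 1 → α < 1 →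
      Tendsto (fun r : ℝ => (φ (r * ω) - ω) / (r * ω - ω)) (𝓝[<] 1) (𝓝 α) →
      (sSup (norm '' numRange φ) = 1 / √α ↔ ∃ l a ω' : ℂ, ‖l‖ = 1 ∧ ‖a‖ < 1 ∧
        (∀ z : ℂ, ‖z‖ < 1 → φ z = mob l a z) ∧ ‖ω'‖ = 1 ∧ ω' ≠ ω ∧ mob l a ω' = ω' ∧
        Δ α ≤ ‖ω - ω'‖ ^ 2) := by
  choose! Δ h1 h2 using fun α : ℝ => thresh (α := α)
  refine ⟨Δ, h1, fun φ ω α hφ hω hα1 hder => ?_⟩
  have hα := (iterate_bound hφ.1 hφ.2.1 hω hder).1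
  refine ⟨fun h => ?_, fun ⟨l, a, ω', hl, ha, he, hω', hne, f2, hd⟩ => ?_⟩
  · obtain ⟨l, a, hl, ha, he⟩ := (hyp_lower hφ hω hder).2 h
    obtain ⟨f1, hj⟩ := der_eq hl ha he hω hα hder
    obtain ⟨ω', hω', hne, f2⟩ := second_fixed hl ha hω f1 (hj ▸ hα1.ne)
    obtain ⟨c, e, hc⟩ := bridge hl ha hω hω' hne f1 f2 hj hα1
    refine ⟨l, a, ω', hl, ha, he, hω', hne, f2, e ▸ (h2 α hα hα1 c).1 (hc.1 ?_)⟩
    rw [← mul_one_div 2, ← h]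
    exact (radius hφ (autμ_clark hl ha he)).1.1
  · obtain ⟨f1, hj⟩ := der_eq hl ha he hω hα hder
    obtain ⟨c, e, hc⟩ := bridge hl ha hω hω' hne f1 f2 hj hα1
    have h3 := (radius hφ (autμ_clark hl ha he)).1.2 (hc.2 ((h2 α hα hα1 c).2 (e ▸ hd)))
    rw [← mul_one_div 2] at h3
    exact le_antisymm (by linarith) (hyp_lower hφ hω hder).1

end Pool.Agent.Work.MP_f96e05_an.NR
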